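import Pool.Agent.E8helper95.NP.Stm

/-!
Project NP, piece B1.
-/

set_option autoImplicit false

namespace Pool.Agent.E8helper81.NP

open Pool.Agent.E8helper95.NP

lemma rep_succ (p n : ℕ) : rep p (n + 1) = rep p n + (p : ℤ) ^ n := Finset.sum_range_succ _ _

lemma rep_zero (p : ℕ) : rep p 0 = 0 := Finset.sum_range_zero _

lemma rep_one (p : ℕ) : rep p 1 = 1 := by rw [rep_succ, rep_zero]; simp

lemma rep_succ' (p n : ℕ) : rep p (n + 1) = 1 + p * rep p n := by
  induction n with
  | zero => rw [rep_one, rep_zero]; ring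
  | succ n ih =>
    rw [rep_succ p (n + 1)]
    nth_rewrite 1 [ih]
    rw [rep_succ p n]
    ring

lemma rep_geom (p n : ℕ) : ((p : ℤ) - 1) * rep p n = (p : ℤ) ^ n - 1 := by
  induction n with
  | zero => rw [rep_zero]; ring
  | succ n ih => rw [rep_succ, mul_add, ih]; ring

lemma rep_add (p b c : ℕ) : rep p (b + c) = rep p b + (p : ℤ) ^ b * rep p c := by
  induction c with
  | zero => rw [rep_zero]; simp
  | succ c ih => rw [← add_assoc, rep_succ, ih, rep_succ]; ring

lemma rep_nonneg (p n : ℕ) : 0 ≤ rep p n := Finset.sum_nonneg fun i _ => by positivity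

lemma rep_pos (p n : ℕ) (hn : 1 ≤ n) : 1 ≤ rep p n := by
  obtain ⟨m, rfl⟩ : ∃ m, n = m + 1 := ⟨n - 1, by omega⟩
  rw [rep_succ']
  have := rep_nonneg p m
  have : (0 : ℤ) ≤ p * rep p m := by positivity
  linarith

lemma rep_parity (p n : ℕ) (hp : Odd p) : (Even (rep p n) ↔ Even n) := by
  induction n with
  | zero => simp [rep_zero]
  | succ n ih =>
    have h1 : ¬ Even ((p : ℤ) ^ n) := by
      rw [Int.not_even_iff_odd]
      exact Odd.pow (by exact_mod_cast hp)
    rw [rep_succ, Int.even_add, ih, Nat.even_add_one]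
    tauto

/-- an odd positive divisor of a power of two -/
lemma odd_dvd {h : ℤ} (h0 : 0 < h) (ho : Odd h) {n : ℕ} (hd : h ∣ 2 ^ n) : h = 1 := by
  have h1 : h.natAbs ∣ 2 ^ n := by
    have := Int.natAbs_dvd_natAbs.2 hd
    simpa [Int.natAbs_pow] using this
  obtain ⟨j, -, hj⟩ := (Nat.dvd_prime_pow Nat.prime_two).1 h1
  rcases Nat.eq_zero_or_pos j with rfl | hj0
  · rw [pow_zero] at hj
    omega
  · exfalso
    have h2 : Even (2 ^ j : ℕ) := (Nat.even_pow' hj0.ne').2 even_two
    rw [← hj] at h2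
    have h3 : Odd h.natAbs := Int.natAbs_odd.2 ho
    exact (Nat.not_even_iff_odd.2 h3) h2

lemma sq_mod (x : ℤ) (hx : Odd x) (b : ℕ) : ∃ u : ℤ, x ^ (2 * b) = 8 * u + 1 := by
  obtain ⟨v, hv⟩ := Int.eight_dvd_sq_sub_one_of_odd hx
  induction b with
  | zero => exact ⟨0, by norm_num⟩
  | succ b ih =>
    obtain ⟨u, hu⟩ := ih
    refine ⟨8 * u * v + u + v, ?_⟩
    have h1 : x ^ 2 = 8 * v + 1 := by linarith
    have h2 : x ^ (2 * (b + 1)) = x ^ (2 * b) * x ^ 2 := by ring
    rw [h2, hu, h1]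
    ring

lemma pow_big (p : ℤ) (hp : 3 ≤ p) (c : ℕ) : (c : ℤ) + 6 ≤ p ^ (c + 2) := by
  induction c with
  | zero => norm_num; nlinarith
  | succ c ih =>
    have h1 : p ^ (c + 1 + 2) = p * p ^ (c + 2) := by ring
    rw [h1]
    push_cast
    nlinarith

theorem t_B1 (hV : S_V) : S_B1 := by
  intro k p m a₁ b a hs hb hbm haa
  obtain ⟨hp, hp3, hm, ha₁, ha₂, hb₁, hb₂, eq⟩ := hs
  have hodd : Odd p := hp.odd_of_ne_two (by omega)
  have hp3' : (3 : ℤ) ≤ p := by exact_mod_cast hp3
  have hA : (1 : ℤ) ≤ 2 ^ a := one_le_pow₀ (by norm_num)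
  -- the number `h`
  obtain ⟨h, hh⟩ : ∃ h : ℤ, h = 2 ^ (k + 1) - p - (p - 1) * 2 ^ a := ⟨_, rfl⟩
  have geo := rep_geom p m
  have star : rep p m * h = 2 ^ a + 1 + 2 ^ a₁ * (p : ℤ) ^ b := by
    rw [hh]
    linear_combination eq - 2 ^ a * geo
  have hSpos := rep_pos p m (by omega)
  have hpos : 0 < h := by
    by_contra hc
    push Not at hc
    have h1 : rep p m * h ≤ 0 := mul_nonpos_of_nonneg_of_nonpos (by linarith) hc
    have h2 : (0 : ℤ) < 2 ^ a + 1 + 2 ^ a₁ * (p : ℤ) ^ b := by positivity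
    linarith
  obtain ⟨c, hc⟩ := hodd
  have hho : Odd h := by
    refine ⟨2 ^ k - c - 1 - c * 2 ^ a, ?_⟩
    rw [hh, hc]
    push_cast
    ring
  -- the number `g`
  have hg : 2 * (2 : ℤ) ^ a ≤ h + p := by
    have h1 : (2 : ℤ) ^ (k + 1) = 2 ^ a * (2 * 2 ^ (k - a)) := by
      rw [show k + 1 = a + ((k - a) + 1) by omega, pow_add, pow_succ]
      ring
    have h2 : (2 : ℤ) ^ a * (2 * (2 ^ (k - a) - c)) = h + p := by
      rw [hh, h1, hc]
      push_cast
      ring
    have h3 : 0 < (2 : ℤ) ^ a * (2 * (2 ^ (k - a) - c)) := by rw [h2]; linarith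
    have h4 : 0 < (2 : ℤ) ^ (k - a) - c := by
      by_contra h5
      push Not at h5
      have := mul_nonpos_of_nonneg_of_nonpos (by linarith : (0 : ℤ) ≤ 2 ^ a)
        (by linarith : 2 * ((2 : ℤ) ^ (k - a) - c) ≤ 0)
      linarith
    have h6 : (2 : ℤ) ^ a * (2 * 1) ≤ 2 ^ a * (2 * (2 ^ (k - a) - c)) :=
      mul_le_mul_of_nonneg_left (by linarith) (by linarith)
    linarith
  have hM : (2 : ℤ) ^ (k + 1) = h + p + (p - 1) * 2 ^ a := by rw [hh]; ring
  obtain ⟨j, hj⟩ : ∃ j : ℕ, (2 : ℤ) ^ (k + 1) = 2 ^ a₁ * (2 * 2 ^ j) := by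
    refine ⟨k - a₁, ?_⟩
    rw [show k + 1 = a₁ + ((k - a₁) + 1) by omega, pow_add, pow_succ]
    ring
  have hBM : 2 * (2 : ℤ) ^ a₁ ≤ 2 ^ (k + 1) := by
    rw [hj]
    have h1 : (1 : ℤ) ≤ 2 ^ j := one_le_pow₀ (by norm_num)
    have h2 : (0 : ℤ) < 2 ^ a₁ := by positivity
    have h3 : (2 : ℤ) ^ a₁ * (2 * 1) ≤ 2 ^ a₁ * (2 * 2 ^ j) :=
      mul_le_mul_of_nonneg_left (by linarith) h2.le
    linarith
  -- decomposition
  obtain ⟨l, hl⟩ : ∃ l, m = b + l := ⟨m - b, by omega⟩
  have hl1 : 1 ≤ l := by omega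
  subst hl
  obtain ⟨t, ht⟩ : ∃ t : ℤ, t = 2 ^ a₁ - h * rep p l := ⟨_, rfl⟩
  have st2 : (p : ℤ) ^ b * t = h * rep p b - 2 ^ a - 1 := by
    rw [ht]
    rw [rep_add] at star
    linear_combination -star
  have hRpos := rep_pos p b hb
  have geb := rep_geom p b
  have hpb : (p : ℤ) ≤ (p : ℤ) ^ b := by
    calc (p : ℤ) = (p : ℤ) ^ 1 := (pow_one _).symm
      _ ≤ (p : ℤ) ^ b := pow_le_pow_right₀ (by linarith) hb
  have ht1 : 1 ≤ t := by
    by_contra hcon
    push Not at hcon
    rcases (show t = 0 ∨ t ≤ -1 by omega) with h0 | h0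
    · rw [h0, mul_zero] at st2
      rw [h0] at ht
      have h1 : h = 1 := odd_dvd hpos hho (n := a₁) ⟨rep p l, by linarith⟩
      rw [h1, one_mul] at st2
      obtain ⟨b', rfl⟩ : ∃ b', b = b' + 1 := ⟨b - 1, by omega⟩
      rw [rep_succ'] at st2
      have h2 : (p : ℤ) ∣ ((2 ^ a : ℕ) : ℤ) := ⟨rep p b', by push_cast; linarith⟩
      have h3 : p ∣ 2 := hp.dvd_of_dvd_pow (Int.natCast_dvd_natCast.1 h2)
      have := Nat.le_of_dvd (by norm_num) h3
      omega
    · have h1 : (p : ℤ) ^ b * t ≤ (p : ℤ) ^ b * (-1) :=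
        mul_le_mul_of_nonneg_left h0 (by linarith)
      have h2 : h * 1 ≤ h * rep p b := mul_le_mul_of_nonneg_left hRpos hpos.le
      linarith
  have hhp : (p : ℤ) ≤ h := by
    by_contra hcon
    push Not at hcon
    have h1 : h * rep p b ≤ (p - 1) * rep p b := by
      apply mul_le_mul_of_nonneg_right (by linarith) (by linarith)
    have h2 : (p : ℤ) ^ b * 1 ≤ (p : ℤ) ^ b * t :=
      mul_le_mul_of_nonneg_left ht1 (by linarith)
    linarith
  rcases (show l = 1 ∨ 2 ≤ l by omega) with rfl | hl2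
  · rw [rep_one, mul_one] at ht
    -- the number `q`
    obtain ⟨q, hq⟩ : ∃ q : ℤ, q = h - (p - 1) * t := ⟨_, rfl⟩
    have q1 : q * rep p b = t + 2 ^ a + 1 := by
      rw [hq]
      linear_combination -st2 - t * geb
    have q2 : (2 : ℤ) ^ (k + 1) = q * (p : ℤ) ^ b + 1 := by
      have : (p : ℤ) ^ b = (p - 1) * rep p b + 1 := by linarith
      rw [this, hM]
      have e : h = q + (p - 1) * t := by rw [hq]; ring
      rw [e]
      linear_combination (-(p : ℤ) + 1) * q1
    have q3 : (2 : ℤ) ^ a₁ = p * t + q := by rw [hq, ht]; ring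
    have q4 : 0 < q := by
      by_contra hcon
      push Not at hcon
      have := mul_nonpos_of_nonpos_of_nonneg hcon (by linarith : (0 : ℤ) ≤ rep p b)
      linarith
    have q5 : Odd q := by
      have : q = h - 2 * (c * t) := by rw [hq, hc]; push_cast; ring
      rw [this]
      exact hho.sub_even (even_two_mul _)
    have q6 : 2 * (q * rep p b) + q * (p : ℤ) ^ b ≤ 1 + 2 * p * (2 ^ a + 1) := by
      have h1 : (2 : ℤ) ^ a₁ + p * (2 ^ a + 1) = q * (rep p b + (p : ℤ) ^ b) := by
        have : (p : ℤ) ^ b = (p - 1) * rep p b + 1 := by linarith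
        rw [q3, this]
        linear_combination (-(p : ℤ)) * q1
      rw [q2] at hBM
      linarith
    have hBev : Even ((2 : ℤ) ^ a₁) := by
      rw [Int.even_pow]
      exact ⟨even_two, by omega⟩
    have hpar := rep_parity p (b + 1) ⟨c, hc⟩
    rcases Nat.even_or_odd (b + 1) with hev | hod
    · -- `m` even
      have hA1 : (2 : ℤ) ^ a = 1 := by
        rcases Nat.eq_zero_or_pos a with rfl | ha0
        · exact pow_zero _
        · exfalso
          have h1 : Even (rep p (b + 1) * h) := (hpar.2 hev).mul_right h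
          rw [star] at h1
          have h2 : Even ((2 : ℤ) ^ a) := by
            rw [Int.even_pow]
            exact ⟨even_two, by omega⟩
          have h3 : Even ((2 : ℤ) ^ a₁ * (p : ℤ) ^ b) := hBev.mul_right _
          have h4 : Odd ((2 : ℤ) ^ a + 1 + 2 ^ a₁ * (p : ℤ) ^ b) := (h2.add_one).add_even h3
          exact (Int.not_even_iff_odd.2 h4) h1
      rw [hA1] at q6 q1
      rcases (show b = 1 ∨ 3 ≤ b by
        rcases hev with ⟨r, hr⟩
        omega) with rfl | hb3
      · rw [rep_one, mul_one] at q1 q6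
        rw [pow_one] at q6 q2
        have h1 : q ≤ 3 := by
          by_contra hcon
          push Not at hcon
          have : 4 * ((p : ℤ) + 2) ≤ q * (p + 2) :=
            mul_le_mul_of_nonneg_right (by linarith) (by linarith)
          linarith
        obtain ⟨r, hr⟩ := q5
        have h2 : q = 3 := by omega
        have h3 : t = 1 := by linarith
        rw [h2, h3, mul_one] at q3
        rw [h2] at q2
        rw [q2, q3] at hj
        rcases Nat.eq_zero_or_pos j with rfl | hj0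
        · rw [pow_zero, mul_one] at hj
          have h4 : (p : ℤ) = 5 := by linarith
          rw [h4] at q2
          have h5 : k + 1 = 4 := by
            have h6 : (2 : ℤ) ^ (k + 1) = 2 ^ 4 := by rw [q2]; norm_num
            exact Nat.pow_right_injective (le_refl 2) (by exact_mod_cast h6)
          refine ⟨by omega, by exact_mod_cast h4, rfl⟩
        · exfalso
          obtain ⟨j', rfl⟩ : ∃ j', j = j' + 1 := ⟨j - 1, by omega⟩
          have h4 : (1 : ℤ) ≤ 2 ^ j' := one_le_pow₀ (by norm_num)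
          rw [pow_succ] at hj
          have h5 : ((p : ℤ) + 3) * (4 * 1) ≤ (p + 3) * (4 * 2 ^ j') :=
            mul_le_mul_of_nonneg_left (by linarith) (by linarith)
          linarith
      · exfalso
        have h1 : (p : ℤ) ^ 3 ≤ (p : ℤ) ^ b := pow_le_pow_right₀ (by linarith) hb3
        have hpb0 : (0 : ℤ) ≤ (p : ℤ) ^ b := by positivity
        have h2 : 1 * (p : ℤ) ^ b ≤ q * (p : ℤ) ^ b :=
          mul_le_mul_of_nonneg_right (by linarith) hpb0
        have h3 : 9 * (p : ℤ) ≤ (p : ℤ) ^ 3 := by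
          have e1 : (9 : ℤ) ≤ (p : ℤ) ^ 2 := by nlinarith
          calc 9 * (p : ℤ) ≤ (p : ℤ) ^ 2 * p := mul_le_mul_of_nonneg_right e1 (by linarith)
            _ = (p : ℤ) ^ 3 := by ring
        have h4 : 0 ≤ q * rep p b := mul_nonneg q4.le (by linarith)
        linarith
    · -- `m` odd
      exfalso
      have ha1 : 1 ≤ a := by
        by_contra hcon
        have ha0 : a = 0 := by omega
        subst ha0
        have h1 : Odd (rep p (b + 1) * h) := by
          refine Odd.mul ?_ hho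
          rw [← Int.not_even_iff_odd, hpar, Nat.not_even_iff_odd]
          exact hod
        rw [star, pow_zero] at h1
        have h3 : Even ((2 : ℤ) ^ a₁ * (p : ℤ) ^ b) := hBev.mul_right _
        have h4 : Even (1 + 1 + (2 : ℤ) ^ a₁ * (p : ℤ) ^ b) := (by decide : Even (1 + 1 : ℤ)).add h3
        exact (Int.not_even_iff_odd.2 h1) h4
      obtain ⟨b', hb'⟩ : ∃ b', b = 2 * b' := by
        rcases hod with ⟨r, hr⟩
        exact ⟨r, by omega⟩
      have q7 : 7 ≤ q := by
        obtain ⟨u, hu⟩ := sq_mod p (by exact_mod_cast (⟨c, hc⟩ : Odd p)) b'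
        have h1 : (2 : ℤ) ^ (k + 1) = 8 * 2 ^ (k - 2) := by
          rw [show k + 1 = 3 + (k - 2) by omega, pow_add]
          norm_num
        rw [hb', hu, h1] at q2
        have h2 : q = 8 * (2 ^ (k - 2) - q * u) - 1 := by linarith
        omega
      have hVV := hV p (b + 1) a ⟨c, hc⟩ hod hp3 (by
        have h1 : rep p (b + 1 + 1) = 2 ^ (k + 1) * rep p (b + 1) - 2 ^ a₁ * (p : ℤ) ^ b -
            2 ^ a * (p : ℤ) ^ (b + 1) := by
          rw [rep_succ' p (b + 1)]
          linear_combination -eq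
        rw [h1]
        refine dvd_sub (dvd_sub ?_ ?_) ?_
        · exact Dvd.dvd.mul_right (pow_dvd_pow 2 (by omega)) _
        · exact Dvd.dvd.mul_right (pow_dvd_pow 2 (by omega)) _
        · exact Dvd.intro _ rfl)
      have hV2 := Nat.le_of_dvd (by positivity) hVV
      have hV3 : 2 * (2 : ℤ) ^ a ≤ (p + 1) * (b + 2) := by
        have h1 : ((2 ^ (a + 1) : ℕ) : ℤ) ≤ (((p + 1) * (b + 1 + 1) : ℕ) : ℤ) := by
          exact_mod_cast hV2
        push_cast at h1
        rw [pow_succ] at h1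
        linarith
      have q8 : 7 * (2 * rep p b + (p : ℤ) ^ b) ≤ 1 + 2 * p + p * ((p + 1) * (b + 2)) := by
        have h1 : 7 * (2 * rep p b + (p : ℤ) ^ b) ≤ q * (2 * rep p b + (p : ℤ) ^ b) := by
          apply mul_le_mul_of_nonneg_right q7
          have : (0 : ℤ) ≤ (p : ℤ) ^ b := by positivity
          linarith
        have h2 : (p : ℤ) * (2 * 2 ^ a) ≤ p * ((p + 1) * (b + 2)) :=
          mul_le_mul_of_nonneg_left hV3 (by linarith)
        linarith
      rcases (show b = 2 ∨ 4 ≤ b by omega) with rfl | hb4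
      · have e1 : rep p 2 = 1 + p := by rw [rep_succ', rep_one, mul_one]
        rw [e1] at q8
        push_cast at q8
        have h1 : (0 : ℤ) ≤ p * p := by positivity
        linarith
      · obtain ⟨d, rfl⟩ : ∃ d, b = d + 4 := ⟨b - 4, by omega⟩
        have h1 := pow_big p hp3' d
        have h2 : (p : ℤ) ^ (d + 4) = p ^ 2 * p ^ (d + 2) := by ring
        rw [h2] at q8
        push_cast at q8
        obtain ⟨z, hz⟩ : ∃ z : ℤ, z = (p : ℤ) ^ (d + 2) := ⟨_, rfl⟩
        rw [← hz] at q8 h1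
        have h3 : (p : ℤ) * ((p + 1) * (d + 4 + 2)) ≤ p * ((p + 1) * z) := by
          apply mul_le_mul_of_nonneg_left _ (by linarith)
          apply mul_le_mul_of_nonneg_left _ (by linarith)
          linarith
        have hz6 : (6 : ℤ) ≤ z := by
          have : (0 : ℤ) ≤ (d : ℤ) := by positivity
          linarith
        have h4 : (p : ℤ) * ((p + 1) * z) ≤ 2 * (p ^ 2 * z) := by
          have h5 : (0 : ℤ) ≤ z * (p * (p - 1)) :=
            mul_nonneg (by linarith) (mul_nonneg (by linarith) (by linarith))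
          linarith
        have h6 : (9 : ℤ) * p ≤ p ^ 2 * z := by
          have h8 : (0 : ℤ) ≤ p * (p - 3) := mul_nonneg (by linarith) (by linarith)
          have h9 : (p : ℤ) ^ 2 * 6 ≤ p ^ 2 * z :=
            mul_le_mul_of_nonneg_left hz6 (by positivity)
          linarith
        have h10 := rep_pos p (d + 4) (by omega)
        linarith
  · exfalso
    obtain ⟨l', rfl⟩ : ∃ l', l = l' + 2 := ⟨l - 2, by omega⟩
    have h1 : (p : ℤ) + 1 ≤ rep p (l' + 2) := by
      rw [rep_succ', rep_succ']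
      have h2 := rep_nonneg p l'
      have h3 : (0 : ℤ) ≤ p * (p * rep p l') := by positivity
      linarith
    have h2 : h * (p + 1) + 1 ≤ (2 : ℤ) ^ a₁ := by
      have h3 : h * (p + 1) ≤ h * rep p (l' + 2) := mul_le_mul_of_nonneg_left h1 hpos.le
      linarith
    have h4 : (p - 1 : ℤ) * (2 * 2 ^ a) ≤ (p - 1) * (h + p) :=
      mul_le_mul_of_nonneg_left hg (by linarith)
    have h5 : (0 : ℤ) ≤ (p + 1) * (3 * h - p) := mul_nonneg (by linarith) (by linarith)
    linarith

end Pool.Agent.E8helper81.NP
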